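import Pool.Agent.H30.BV.Targets

/-!
MP_04ff0f_nt, board bv_modules, module IN.
-/

set_option autoImplicit false

open Finset Real ArithmeticFunction MeasureTheory

namespace Pool.Agent.H62.BV

open Pool.Agent.H30.BV
open Pool.Agent.H27.LS (hat)

theorem logpow_le (m : ℕ) (δ : ℝ) (hδ : 0 < δ) (x : ℝ) (hx : 1 ≤ x) :
    Real.log x ^ m ≤ ((m + 1) / δ) ^ m * x ^ δ := by
  have hm : (0 : ℝ) < m + 1 := by positivity
  have hε : 0 < δ / (m + 1) := div_pos hδ hm
  have hx0 : (0 : ℝ) ≤ x := by linarith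
  have h1 := Real.log_le_rpow_div hx0 hε
  have h2 : δ / (m + 1) * m ≤ δ := by
    rw [div_mul_eq_mul_div, div_le_iff₀ hm]
    nlinarith
  calc Real.log x ^ m ≤ (x ^ (δ / (m + 1)) / (δ / (m + 1))) ^ m :=
        pow_le_pow_left₀ (Real.log_nonneg hx) h1 m
    _ = ((m + 1) / δ) ^ m * (x ^ (δ / (m + 1))) ^ m := by
        rw [← mul_pow]
        congr 1
        rw [div_div_eq_mul_div]; ring
    _ = ((m + 1) / δ) ^ m * x ^ (δ / (m + 1) * m) := by
        rw [Real.rpow_mul hx0, Real.rpow_natCast]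
    _ ≤ ((m + 1) / δ) ^ m * x ^ δ := by
        gcongr

/-- the integrand of the final bound is integrable -/
theorem kint (E : ℕ) : ∃ K : ℝ, 0 < K ∧ ∀ t : ℝ,
    Real.log (|t| + 3) ^ E / (1 + t ^ 2) ≤ K * (1 + ‖t‖ ^ 2) ^ (-(3 / 2 : ℝ) / 2) := by
  refine ⟨((E + 1) / (1 / 2)) ^ E * 6 ^ (1 / 2 : ℝ), by positivity, fun t => ?_⟩
  have ht : 0 ≤ |t| := abs_nonneg t
  have h0 : (0 : ℝ) < 1 + t ^ 2 := by positivity
  have h1 := logpow_le E (1 / 2) (by norm_num) (|t| + 3) (by linarith)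
  have h2 : |t| + 3 ≤ 6 * (1 + t ^ 2) ^ (1 / 2 : ℝ) := by
    rw [← Real.sqrt_eq_rpow]
    have h3 : |t| + 3 ≤ √(36 * (1 + t ^ 2)) := by
      apply Real.le_sqrt_of_sq_le
      have := sq_abs t
      nlinarith [sq_nonneg (|t| - 3)]
    rw [Real.sqrt_mul (by norm_num)] at h3
    rw [show (36 : ℝ) = 6 ^ 2 by norm_num, Real.sqrt_sq (by norm_num)] at h3
    exact h3
  have h4 : (|t| + 3) ^ (1 / 2 : ℝ) ≤ 6 ^ (1 / 2 : ℝ) * (1 + t ^ 2) ^ (1 / 4 : ℝ) := by
    calc (|t| + 3) ^ (1 / 2 : ℝ) ≤ (6 * (1 + t ^ 2) ^ (1 / 2 : ℝ)) ^ (1 / 2 : ℝ) := by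
          gcongr
      _ = 6 ^ (1 / 2 : ℝ) * (1 + t ^ 2) ^ (1 / 4 : ℝ) := by
          rw [Real.mul_rpow (by norm_num) (by positivity), ← Real.rpow_mul h0.le]
          norm_num
  rw [Real.norm_eq_abs, sq_abs]
  calc Real.log (|t| + 3) ^ E / (1 + t ^ 2)
      ≤ (((E + 1) / (1 / 2)) ^ E * (6 ^ (1 / 2 : ℝ) * (1 + t ^ 2) ^ (1 / 4 : ℝ))) / (1 + t ^ 2) := by
        gcongr
        exact h1.trans (mul_le_mul_of_nonneg_left h4 (by positivity))
    _ = ((E + 1) / (1 / 2)) ^ E * 6 ^ (1 / 2 : ℝ) * (1 + t ^ 2) ^ (-(3 / 2 : ℝ) / 2) := by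
        rw [show (-(3 / 2 : ℝ) / 2) = 1 / 4 - 1 by norm_num, Real.rpow_sub h0, Real.rpow_one]
        ring

theorem kint2 : Integrable (fun t : ℝ => (1 + ‖t‖ ^ 2) ^ (-(3 / 2 : ℝ) / 2)) := by
  apply integrable_rpow_neg_one_add_norm_sq
  norm_num

theorem term_eq (f : ℕ → ℂ) (k : ℕ) (σ t : ℝ) (n : ℕ) :
    LSeries.term (fun n => (Λ n : ℂ) * f n * ((Real.log n ^ k : ℝ) : ℂ))
      ((σ : ℂ) + ((-t : ℝ) : ℂ) * Complex.I) n =
    (Λ n : ℂ) * f n * ((Real.log n ^ k * Real.exp (-(σ * Real.log n)) : ℝ) : ℂ) *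
      Complex.exp (t * Real.log n * Complex.I) := by
  rcases Nat.eq_zero_or_pos n with rfl | hn
  · simp
  · rw [LSeries.term_of_ne_zero hn.ne']
    have hn0 : (n : ℂ) ≠ 0 := by exact_mod_cast hn.ne'
    rw [Complex.cpow_def_of_ne_zero hn0, div_eq_mul_inv, ← Complex.exp_neg]
    rw [Complex.ofReal_mul, Complex.ofReal_exp]
    rw [show -(Complex.log n * ((σ : ℂ) + ((-t : ℝ) : ℂ) * Complex.I)) =
      ((-(σ * Real.log n) : ℝ) : ℂ) + t * Real.log n * Complex.I by
        rw [← Complex.natCast_log]; push_cast; ring]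
    rw [Complex.exp_add]
    ring

theorem inn (hFT : T_FT) : T_IN := by
  intro k E
  obtain ⟨C₀, hC₀, hft⟩ := hFT k
  obtain ⟨K, hK, hKt⟩ := kint E
  set J : ℝ := ∫ t : ℝ, (1 + ‖t‖ ^ 2) ^ (-(3 / 2 : ℝ) / 2) with hJ
  have hJ0 : 0 ≤ J := integral_nonneg fun t => by positivity
  refine ⟨C₀ * K * (J + 1), by positivity, fun f X A hf hX hA => ?_⟩
  obtain ⟨G, hGc, hGb, hG⟩ := hft X hX
  have hX0 : (0 : ℝ) < X := by linarith
  have hlX : 0 < Real.log X := Real.log_pos (by linarith)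
  set σ : ℝ := 1 + 1 / Real.log X with hσ
  have hσ1 : 0 < σ - 1 := by rw [hσ]; simp [hlX]
  have hA0 : 0 ≤ A := by
    have h1 := (norm_nonneg _).trans (hA 0)
    have h2 : 0 < Real.log (|(0 : ℝ)| + 3) ^ E := by
      apply pow_pos
      apply Real.log_pos
      norm_num
    exact nonneg_of_mul_nonneg_left h1 h2
  -- the coefficients
  set a : ℕ → ℂ := fun n => (Λ n : ℂ) * f n *
    ((Real.log n ^ k * Real.exp (-(σ * Real.log n)) : ℝ) : ℂ) with ha
  have ha_norm : ∀ n, ‖a n‖ ≤ (((k + 1 : ℕ) + 1) / ((σ - 1) / 2)) ^ (k + 1) *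
      (1 / (n : ℝ) ^ (1 + (σ - 1) / 2)) := by
    intro n
    rcases Nat.eq_zero_or_pos n with rfl | hn
    · simp only [ha, ArithmeticFunction.map_zero, Complex.ofReal_zero, zero_mul, norm_zero]
      positivity
    · have hn1 : (1 : ℝ) ≤ n := by exact_mod_cast hn
      have hn0 : (0 : ℝ) < n := by linarith
      have hln : 0 ≤ Real.log n := Real.log_nonneg hn1
      simp only [ha]
      rw [norm_mul, norm_mul, Complex.norm_real, Complex.norm_real, Real.norm_of_nonneg
        (mul_nonneg (pow_nonneg hln k) (Real.exp_nonneg _)), Real.norm_of_nonneg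
        vonMangoldt_nonneg]
      have h1 := logpow_le (k + 1) ((σ - 1) / 2) (by linarith) n hn1
      have h2 : Real.exp (-(σ * Real.log n)) = (n : ℝ) ^ (-σ) := by
        rw [Real.rpow_def_of_pos hn0]
        congr 1
        ring
      calc Λ n * ‖f n‖ * (Real.log n ^ k * Real.exp (-(σ * Real.log n)))
          ≤ Real.log n * 1 * (Real.log n ^ k * Real.exp (-(σ * Real.log n))) := by
            gcongr
            · exact vonMangoldt_le_log
            · exact hf n
        _ = Real.log n ^ (k + 1) * (n : ℝ) ^ (-σ) := by rw [h2]; ring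
        _ ≤ ((((k + 1 : ℕ) + 1) / ((σ - 1) / 2)) ^ (k + 1) * (n : ℝ) ^ ((σ - 1) / 2)) *
            (n : ℝ) ^ (-σ) := by gcongr
        _ = _ := by
            rw [mul_assoc, ← Real.rpow_add hn0, one_div, ← Real.rpow_neg hn0.le]
            congr 2
            ring
  have ha_sum : Summable (fun n => ‖a n‖) := by
    refine Summable.of_nonneg_of_le (fun n => norm_nonneg _) ha_norm ?_
    apply Summable.mul_left
    exact Real.summable_one_div_nat_rpow.2 (by linarith)
  have hGi : Integrable G := by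
    have h1 : Integrable (fun t : ℝ => C₀ * X / Real.log X ^ k / (1 + t ^ 2)) := by
      exact (integrable_inv_one_add_sq.const_mul (C₀ * X / Real.log X ^ k)).congr
        (Filter.Eventually.of_forall fun t => (div_eq_mul_inv _ _).symm)
    exact h1.mono' hGc.aestronglyMeasurable (Filter.Eventually.of_forall hGb)
  have hexp : ∀ (t : ℝ) (n : ℕ), ‖Complex.exp (t * Real.log n * Complex.I)‖ = 1 := by
    intro t n
    rw [← Complex.ofReal_mul]
    exact Complex.norm_exp_ofReal_mul_I _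
  have hFi : ∀ n : ℕ, Integrable (fun t : ℝ =>
      a n * (G t * Complex.exp (t * Real.log n * Complex.I))) := by
    intro n
    apply Integrable.const_mul
    refine hGi.mono (hGc.mul (by fun_prop)).aestronglyMeasurable
      (Filter.Eventually.of_forall fun t => ?_)
    rw [norm_mul, hexp, mul_one]
  have hnorm : ∀ n : ℕ, (∫ t : ℝ, ‖a n * (G t * Complex.exp (t * Real.log n * Complex.I))‖) =
      ‖a n‖ * ∫ t : ℝ, ‖G t‖ := by
    intro n
    rw [← integral_const_mul]
    refine integral_congr_ae (Filter.Eventually.of_forall fun t => ?_)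
    simp only [norm_mul, hexp, mul_one]
  have hHS := hasSum_integral_of_summable_integral_norm hFi (by
    simp_rw [hnorm]
    exact ha_sum.mul_right _)
  -- the sum
  have hterm : ∀ n : ℕ, (∫ t : ℝ, a n * (G t * Complex.exp (t * Real.log n * Complex.I))) =
      (wx X n : ℂ) * f n := by
    intro n
    rcases Nat.lt_or_ge n 2 with h2 | h2
    · have hL : Λ n = 0 := by
        interval_cases n
        · simp
        · simp
      simp only [ha, wx, hL, Complex.ofReal_zero, zero_mul, integral_zero]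
    · have hn0 : (0 : ℝ) < n := by exact_mod_cast (by omega : 0 < n)
      have hy : 0 < Real.log n := Real.log_pos (by exact_mod_cast (by omega : 1 < n))
      have h3 := hG (Real.log n) hy
      rw [integral_const_mul]
      simp only [ha, wx]
      rw [Real.log_div hn0.ne' hX0.ne']
      rw [Complex.ofReal_mul (Λ n), h3]
      ring
  have hzero : ∀ n : ℕ, n ∉ Icc 1 (NX X) → (wx X n : ℂ) * f n = 0 := by
    intro n hn
    rw [mem_Icc, not_and_or] at hn
    rcases hn with hn | hn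
    · have : n = 0 := by omega
      subst this
      simp [wx]
    · have h3 : 3 * X ≤ n := by
        have h4 := Nat.le_ceil (3 * X)
        have h5 : ((NX X : ℕ) : ℝ) ≤ n := by exact_mod_cast (by omega : NX X ≤ n)
        exact h4.trans h5
      simp [wx, Pool.Agent.H27.LS.hat_log_eq_zero_of_ge hX0 h3]
  have hTX : TX X f = ∫ t : ℝ, ∑' n : ℕ, a n * (G t * Complex.exp (t * Real.log n * Complex.I)) := by
    rw [← hHS.tsum_eq]
    simp_rw [hterm]
    rw [tsum_eq_sum hzero]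
    rfl
  have hDS : ∀ t : ℝ, (∑' n : ℕ, a n * (G t * Complex.exp (t * Real.log n * Complex.I))) =
      G t * DS (fun n => (Λ n : ℂ) * f n) k ((σ : ℂ) + ((-t : ℝ) : ℂ) * Complex.I) := by
    intro t
    unfold DS LSeries
    rw [← tsum_mul_left]
    refine tsum_congr fun n => ?_
    rw [term_eq]
    simp only [ha]
    ring
  rw [hTX]
  have hbound : ∀ t : ℝ, ‖∑' n : ℕ, a n * (G t * Complex.exp (t * Real.log n * Complex.I))‖ ≤
      (C₀ * X / Real.log X ^ k * A * K) * (1 + ‖t‖ ^ 2) ^ (-(3 / 2 : ℝ) / 2) := by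
    intro t
    rw [hDS t, norm_mul]
    have h1 := hGb t
    have h2 := hA (-t)
    rw [abs_neg] at h2
    have h0 : (0 : ℝ) < 1 + t ^ 2 := by positivity
    calc ‖G t‖ * ‖DS (fun n => (Λ n : ℂ) * f n) k ((σ : ℂ) + ((-t : ℝ) : ℂ) * Complex.I)‖
        ≤ (C₀ * X / Real.log X ^ k / (1 + t ^ 2)) * (A * Real.log (|t| + 3) ^ E) := by
          gcongr
      _ = (C₀ * X / Real.log X ^ k * A) * (Real.log (|t| + 3) ^ E / (1 + t ^ 2)) := by
          field_simp
      _ ≤ (C₀ * X / Real.log X ^ k * A) * (K * (1 + ‖t‖ ^ 2) ^ (-(3 / 2 : ℝ) / 2)) := by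
          gcongr
          exact hKt t
      _ = _ := by ring
  calc ‖∫ t : ℝ, ∑' n : ℕ, a n * (G t * Complex.exp (t * Real.log n * Complex.I))‖
      ≤ ∫ t : ℝ, (C₀ * X / Real.log X ^ k * A * K) * (1 + ‖t‖ ^ 2) ^ (-(3 / 2 : ℝ) / 2) :=
        norm_integral_le_of_norm_le (kint2.const_mul _) (Filter.Eventually.of_forall hbound)
    _ = (C₀ * X / Real.log X ^ k * A * K) * J := by rw [integral_const_mul]
    _ ≤ (C₀ * X / Real.log X ^ k * A * K) * (J + 1) := by
        gcongr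
        linarith
    _ = C₀ * K * (J + 1) * A * X / Real.log X ^ k := by ring

end Pool.Agent.H62.BV
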