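import Pool.Agent.H30.BV.Targets
import Pool.Agent.H12.PF.MR

/-!
MP_04ff0f_nt, board bv_modules, modules LJ and HS.
-/

set_option autoImplicit false

open Finset Real ArithmeticFunction

namespace Pool.Agent.H62.BV

open Pool.Agent.H30.BV

theorem lj : T_LJ := by
  obtain ⟨C, hC⟩ := Pool.Agent.H12.PF.mr
  refine ⟨3 * (2 + |C|), by positivity, fun y hy => ?_⟩
  set u : ℕ := max 2 ⌊y⌋₊ with hu
  set v : ℕ := max u ⌊y ^ 2⌋₊ with hv
  have hu2 : 2 ≤ u := le_max_left _ _
  have huv : u ≤ v := le_max_left _ _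
  have hmr := hC u v hu2 huv
  have hyu : y ≤ (u : ℝ) ^ 2 := by
    have h1 : y < ⌊y⌋₊ + 1 := Nat.lt_floor_add_one y
    have h2 : (⌊y⌋₊ : ℝ) ≤ u := by exact_mod_cast le_max_right _ _
    have h3 : (2 : ℝ) ≤ u := by exact_mod_cast hu2
    nlinarith
  have hv4 : v ≤ u ^ 4 := by
    apply max_le
    · exact Nat.le_self_pow (by norm_num) u
    · apply Nat.floor_le_of_le
      push_cast
      have h0 : 0 ≤ y := by linarith
      calc y ^ 2 ≤ ((u : ℝ) ^ 2) ^ 2 := by gcongr
        _ = (u : ℝ) ^ 4 := by ring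
  have hlu : 0 < Real.log u := Real.log_pos (by exact_mod_cast (by omega : 1 < u))
  have hlv : 0 < Real.log v := Real.log_pos (by exact_mod_cast (by omega : 1 < v))
  have hr : Real.log v / Real.log u ≤ 4 := by
    rw [div_le_iff₀ hlu]
    calc Real.log v ≤ Real.log ((u ^ 4 : ℕ) : ℝ) :=
          Real.log_le_log (by exact_mod_cast (by omega : 0 < v)) (by exact_mod_cast hv4)
      _ = 4 * Real.log u := by rw [Nat.cast_pow, Real.log_pow]; norm_num
  have hr2 : Real.log (Real.log v / Real.log u) ≤ 2 := by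
    calc Real.log (Real.log v / Real.log u) ≤ Real.log 4 :=
          Real.log_le_log (div_pos hlv hlu) hr
      _ = Real.log (2 ^ 2) := by norm_num
      _ = 2 * Real.log 2 := by rw [Real.log_pow]; norm_num
      _ ≤ 2 := by linarith [Real.log_two_lt_d9]
  have hsub : (Icc 3 ⌊y ^ 2⌋₊).filter (fun p : ℕ => p.Prime ∧ y < (p : ℝ)) ⊆
      (Ioc u v).filter Nat.Prime := by
    intro p hp
    rw [mem_filter, mem_Icc] at hp
    rw [mem_filter, mem_Ioc]
    obtain ⟨⟨h3, hle⟩, hpp, hyp⟩ := hp
    refine ⟨⟨?_, hle.trans (le_max_right _ _)⟩, hpp⟩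
    apply max_lt (by omega)
    exact (Nat.floor_lt (by linarith)).2 hyp
  calc ∑ p ∈ (Icc 3 ⌊y ^ 2⌋₊).filter (fun p : ℕ => p.Prime ∧ y < (p : ℝ)), 3 / (p : ℝ)
      ≤ ∑ p ∈ (Ioc u v).filter Nat.Prime, 3 / (p : ℝ) :=
        sum_le_sum_of_subset_of_nonneg hsub fun _ _ _ => by positivity
    _ = 3 * ∑ p ∈ (Ioc u v).filter Nat.Prime, 1 / (p : ℝ) := by
        rw [mul_sum]; exact sum_congr rfl fun p _ => by ring
    _ ≤ 3 * (2 + |C|) := by
        have := le_abs_self C
        linarith

theorem inv_sum_le (D : ℕ) : ∑ p ∈ Icc 3 D, 1 / ((p : ℝ) * (p - 1)) ≤ 1 / 2 := by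
  suffices h : ∀ n : ℕ, 2 ≤ n → ∑ p ∈ Icc 3 n, 1 / ((p : ℝ) * (p - 1)) ≤ 1 / 2 - 1 / n by
    rcases lt_or_ge D 2 with h1 | h1
    · rw [Finset.Icc_eq_empty (by omega), sum_empty]; norm_num
    · have h2 := h D h1
      have : (0 : ℝ) ≤ 1 / D := by positivity
      linarith
  intro n hn
  induction n, hn using Nat.le_induction with
  | base => rw [Finset.Icc_eq_empty (by omega)]; norm_num
  | succ n hn ih =>
    rw [← Finset.insert_Icc_right_eq_Icc_add_one (by omega), sum_insert (by simp)]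
    have h0 : (0 : ℝ) < n := by exact_mod_cast (by omega : 0 < n)
    have e : 1 / (((n + 1 : ℕ) : ℝ) * (((n + 1 : ℕ) : ℝ) - 1)) = 1 / n - 1 / ((n + 1 : ℕ) : ℝ) := by
      have h1 : ((n + 1 : ℕ) : ℝ) = n + 1 := by push_cast; ring
      have h2 : (n : ℝ) + 1 - 1 = n := by ring
      rw [h1, h2, div_sub_div _ _ h0.ne' (by linarith)]
      rw [div_eq_div_iff (by positivity) (by positivity)]
      ring
    rw [e]
    linarith

theorem hd_eq (e : ℕ) (he : Squarefree e) :
    hd e = ∏ p ∈ e.primeFactors, (2 / ((p : ℝ) - 1)) := by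
  unfold hd
  have h0 : e ≠ 0 := he.ne_zero
  have h1 : (e.totient : ℝ) = ∏ p ∈ e.primeFactors, ((p : ℝ) - 1) := by
    have h2 : e.totient = ∏ p ∈ e.primeFactors, (p - 1) := by
      have h3 := Nat.totient_mul_prod_primeFactors e
      rw [Nat.prod_primeFactors_of_squarefree he] at h3
      have h4 : 0 < e := Nat.pos_of_ne_zero h0
      exact Nat.eq_of_mul_eq_mul_right h4 (by rw [h3, mul_comm])
    rw [h2, Nat.cast_prod]
    refine prod_congr rfl fun p hp => ?_
    have := (Nat.prime_of_mem_primeFactors hp).one_lt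
    rw [Nat.cast_sub (by omega)]
    norm_num
  rw [h1, prod_div_distrib, prod_const]

theorem hs : T_HS := by
  obtain ⟨C, hC⟩ := Pool.Agent.H12.PF.mr
  have hl2 : 0 < Real.log 2 := Real.log_pos (by norm_num)
  refine ⟨Real.exp (2 * C + 1) / Real.log 2 ^ 2, by positivity, fun D p₁ => ?_⟩
  set P : Finset ℕ := (Icc 3 D).filter Nat.Prime with hP
  set v : ℕ := max 2 D with hv
  have hPp : ∀ p ∈ P, 3 ≤ p ∧ p ≤ D ∧ p.Prime := by
    intro p hp
    rw [hP, mem_filter, mem_Icc] at hp
    exact ⟨hp.1.1, hp.1.2, hp.2⟩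
  have h1 : ∑ e ∈ DD D p₁, hd e ≤ ∑ s ∈ P.powerset, ∏ p ∈ s, (2 / ((p : ℝ) - 1)) := by
    have hinj : Set.InjOn Nat.primeFactors (DD D p₁ : Set ℕ) := by
      intro a ha b hb hab
      have ha' : Squarefree a := by
        have := mem_coe.1 ha
        unfold DD at this
        rw [mem_filter] at this
        exact this.2.1
      have hb' : Squarefree b := by
        have := mem_coe.1 hb
        unfold DD at this
        rw [mem_filter] at this
        exact this.2.1
      rw [← Nat.prod_primeFactors_of_squarefree ha', ← Nat.prod_primeFactors_of_squarefree hb']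
      exact congrArg (fun s : Finset ℕ => ∏ p ∈ s, p) hab
    calc ∑ e ∈ DD D p₁, hd e
        = ∑ e ∈ DD D p₁, ∏ p ∈ e.primeFactors, (2 / ((p : ℝ) - 1)) := by
          refine sum_congr rfl fun e he => ?_
          unfold DD at he
          rw [mem_filter] at he
          exact hd_eq e he.2.1
      _ = ∑ s ∈ (DD D p₁).image Nat.primeFactors, ∏ p ∈ s, (2 / ((p : ℝ) - 1)) := by
          rw [sum_image hinj]
      _ ≤ ∑ s ∈ P.powerset, ∏ p ∈ s, (2 / ((p : ℝ) - 1)) := by
          apply sum_le_sum_of_subset_of_nonneg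
          · intro s hs
            rw [mem_image] at hs
            obtain ⟨e, he, rfl⟩ := hs
            unfold DD at he
            rw [mem_filter, mem_Icc] at he
            rw [mem_powerset]
            intro p hp
            have hpp := Nat.prime_of_mem_primeFactors hp
            have hpd := Nat.dvd_of_mem_primeFactors hp
            rw [hP, mem_filter, mem_Icc]
            refine ⟨⟨?_, (Nat.le_of_dvd (by omega) hpd).trans he.1.2⟩, hpp⟩
            have h2 := hpp.two_le
            rcases eq_or_lt_of_le h2 with h3 | h3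
            · exfalso
              rw [← h3] at hpd
              have := he.2.2.1
              rw [← Nat.not_even_iff_odd] at this
              exact this (even_iff_two_dvd.2 hpd)
            · omega
          · intro s hs _
            refine prod_nonneg fun p hp => ?_
            have := (hPp p (mem_powerset.1 hs hp)).1
            have h3 : (3 : ℝ) ≤ p := by exact_mod_cast this
            exact div_nonneg (by norm_num) (by linarith)
  have h2 : ∑ s ∈ P.powerset, ∏ p ∈ s, (2 / ((p : ℝ) - 1)) ≤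
      Real.exp (∑ p ∈ P, 2 / ((p : ℝ) - 1)) := by
    rw [← prod_one_add, Real.exp_sum]
    apply prod_le_prod
    · intro p hp
      have h3 : (3 : ℝ) ≤ p := by exact_mod_cast (hPp p hp).1
      have : 0 ≤ 2 / ((p : ℝ) - 1) := div_nonneg (by norm_num) (by linarith)
      linarith
    · intro p hp
      have := Real.add_one_le_exp (2 / ((p : ℝ) - 1))
      linarith
  have h3 : ∑ p ∈ P, 2 / ((p : ℝ) - 1) ≤ 2 * (Real.log (Real.log v / Real.log 2) + C) + 1 := by
    have hmr := hC 2 v le_rfl (le_max_left _ _)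
    have h4 : ∑ p ∈ P, 2 / ((p : ℝ) - 1) =
        2 * ∑ p ∈ P, (1 : ℝ) / p + 2 * ∑ p ∈ P, 1 / ((p : ℝ) * (p - 1)) := by
      rw [mul_sum, mul_sum, ← sum_add_distrib]
      refine sum_congr rfl fun p hp => ?_
      have h3 : (3 : ℝ) ≤ p := by exact_mod_cast (hPp p hp).1
      have h5 : (p : ℝ) ≠ 0 := by linarith
      have h6 : (p : ℝ) - 1 ≠ 0 := by linarith
      field_simp
      ring
    have h5 : ∑ p ∈ P, (1 : ℝ) / p ≤ ∑ q ∈ (Ioc 2 v).filter Nat.Prime, (1 : ℝ) / q := by
      apply sum_le_sum_of_subset_of_nonneg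
      · intro p hp
        obtain ⟨h3, hle, hpp⟩ := hPp p hp
        rw [mem_filter, mem_Ioc]
        exact ⟨⟨by omega, hle.trans (le_max_right _ _)⟩, hpp⟩
      · intro _ _ _
        positivity
    have h6 : ∑ p ∈ P, 1 / ((p : ℝ) * (p - 1)) ≤ ∑ p ∈ Icc 3 D, 1 / ((p : ℝ) * (p - 1)) := by
      apply sum_le_sum_of_subset_of_nonneg (filter_subset _ _)
      intro p hp _
      rw [mem_Icc] at hp
      have h3 : (3 : ℝ) ≤ p := by exact_mod_cast hp.1
      have : 0 ≤ (p : ℝ) * (p - 1) := mul_nonneg (by linarith) (by linarith)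
      positivity
    have h7 := inv_sum_le D
    have h8 : ((2 : ℕ) : ℝ) = 2 := by norm_num
    rw [h8] at hmr
    rw [h4]
    linarith
  have hlv : 0 < Real.log v :=
    Real.log_pos (by exact_mod_cast (lt_of_lt_of_le one_lt_two (le_max_left 2 D)))
  have hlvD : Real.log v ≤ Real.log (D + 2) := by
    apply Real.log_le_log (by exact_mod_cast (lt_of_lt_of_le two_pos (le_max_left 2 D)))
    have : v ≤ D + 2 := max_le (by omega) (by omega)
    exact_mod_cast this
  calc ∑ e ∈ DD D p₁, hd e ≤ Real.exp (∑ p ∈ P, 2 / ((p : ℝ) - 1)) := h1.trans h2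
    _ ≤ Real.exp (2 * (Real.log (Real.log v / Real.log 2) + C) + 1) := Real.exp_le_exp.2 h3
    _ = Real.exp (2 * C + 1) * (Real.log v / Real.log 2) ^ 2 := by
        rw [show 2 * (Real.log (Real.log v / Real.log 2) + C) + 1 =
          (2 * C + 1) + Real.log (Real.log v / Real.log 2) +
            Real.log (Real.log v / Real.log 2) by ring, Real.exp_add, Real.exp_add,
          Real.exp_log (div_pos hlv hl2)]
        ring
    _ = Real.exp (2 * C + 1) / Real.log 2 ^ 2 * Real.log v ^ 2 := by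
        rw [div_pow]; ring
    _ ≤ Real.exp (2 * C + 1) / Real.log 2 ^ 2 * Real.log (D + 2) ^ 2 := by
        gcongr

end Pool.Agent.H62.BV
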